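import Pool.Agent.J4H1.LL.Stm
import Pool.Agent.J4H8.JP.Abs1

/-! Project LL, piece INT: Taylor's formula along a segment. -/

set_option autoImplicit false

open Complex Filter Topology MeasureTheory

namespace Pool.Agent.J4H4.LL

theorem int_main {H : ℂ → ℂ} (hH : Differentiable ℂ H) {t t1 M E : ℝ} {m : ℕ} (ht : 1 ≤ t)
    (ht1 : t + 1 ≤ t1) (ht2 : t1 ≤ 2 * t) (hM : 0 ≤ M) (hE : 0 ≤ E)
    (h1 : ∀ τ : ℝ, t ≤ τ → τ ≤ t1 → ‖iteratedDeriv (m + 1) H (-(τ : ℂ) ^ 2)‖ * (2 * τ) ^ (m + 1) ≤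
      M * Real.exp (-(τ - t) / 2))
    (h2 : ∀ k : ℕ, k < m + 1 → ‖iteratedDeriv k H (-(t1 : ℂ) ^ 2)‖ * (2 * t1) ^ k ≤ k.factorial * E) :
    ‖H (-(t : ℂ) ^ 2)‖ ≤ ((m + 1 : ℕ) : ℝ) * (t1 - t) ^ (m + 1) * E + 2 * (t1 - t) * 2 ^ (m + 1) * M := by
  have ht0 : 0 < t := by linarith
  have ht10 : 0 < t1 := by linarith
  obtain ⟨U, hU⟩ : ∃ U : ℝ, U = t1 ^ 2 - t ^ 2 := ⟨_, rfl⟩
  have hU0 : 0 ≤ U := by
    rw [hU]
    nlinarith
  have hUle : U ≤ (2 * t1) * (t1 - t) := by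
    rw [hU]
    nlinarith
  have h := Pool.Agent.J4H8.JP.taylor_seg hH (-(t : ℂ) ^ 2) 1 U m
  rw [h]
  have hz : -(t : ℂ) ^ 2 - U * 1 = -(t1 : ℂ) ^ 2 := by
    rw [hU]
    push_cast
    ring
  have hsum : ‖∑ k ∈ Finset.range (m + 1), (U * 1 : ℂ) ^ k / (k.factorial : ℂ) *
      iteratedDeriv k H (-(t : ℂ) ^ 2 - U * 1)‖ ≤ ((m + 1 : ℕ) : ℝ) * (t1 - t) ^ (m + 1) * E := by
    have hterm : ∀ k ∈ Finset.range (m + 1), ‖(U * 1 : ℂ) ^ k / (k.factorial : ℂ) *
        iteratedDeriv k H (-(t : ℂ) ^ 2 - U * 1)‖ ≤ (t1 - t) ^ (m + 1) * E := by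
      intro k hk
      rw [Finset.mem_range] at hk
      have hf : (0 : ℝ) < (k.factorial : ℝ) := by exact_mod_cast Nat.factorial_pos k
      have hd := h2 k hk
      have hp : (0 : ℝ) < (2 * t1) ^ k := by positivity
      rw [hz, norm_mul, norm_div, mul_one, norm_pow, Complex.norm_real, Real.norm_of_nonneg hU0,
        Complex.norm_natCast]
      obtain ⟨D, hD⟩ : ∃ D : ℝ, D = ‖iteratedDeriv k H (-(t1 : ℂ) ^ 2)‖ := ⟨_, rfl⟩
      have hD0 : 0 ≤ D := by
        rw [hD]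
        exact norm_nonneg _
      rw [← hD] at hd ⊢
      calc U ^ k / (k.factorial : ℝ) * D
          ≤ ((2 * t1) * (t1 - t)) ^ k / (k.factorial : ℝ) * D := by gcongr
        _ = (t1 - t) ^ k * (D * (2 * t1) ^ k) / (k.factorial : ℝ) := by
            rw [mul_pow]
            ring
        _ ≤ (t1 - t) ^ k * (k.factorial * E) / (k.factorial : ℝ) := by
            have : 0 ≤ (t1 - t) ^ k := pow_nonneg (by linarith) k
            gcongr
        _ = (t1 - t) ^ k * E := by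
            field_simp
        _ ≤ (t1 - t) ^ (m + 1) * E := by
            apply mul_le_mul_of_nonneg_right _ hE
            exact pow_le_pow_right₀ (by linarith) (by omega)
    refine (norm_sum_le _ _).trans ((Finset.sum_le_card_nsmul _ _ _ hterm).trans ?_)
    rw [Finset.card_range, nsmul_eq_mul, mul_assoc]
  have hint : ‖∫ u in (0 : ℝ)..U, (u : ℂ) ^ m * iteratedDeriv (m + 1) H (-(t : ℂ) ^ 2 - u * 1)‖ ≤
      (M * 2 ^ m * m.factorial / (2 * t)) * |U - 0| := by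
    apply intervalIntegral.norm_integral_le_of_norm_le_const
    intro u hu
    rw [Set.uIoc_of_le hU0] at hu
    obtain ⟨hu0, huU⟩ := hu
    obtain ⟨τ, hτ⟩ : ∃ τ : ℝ, τ = Real.sqrt (t ^ 2 + u) := ⟨_, rfl⟩
    have hτ2 : τ ^ 2 = t ^ 2 + u := by
      rw [hτ]
      exact Real.sq_sqrt (by positivity)
    have hτ0 : 0 ≤ τ := by
      rw [hτ]
      exact Real.sqrt_nonneg _
    have hτt : t ≤ τ := by
      apply le_of_sq_le_sq _ hτ0
      rw [hτ2]
      linarith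
    have hτt1 : τ ≤ t1 := by
      apply le_of_sq_le_sq _ ht10.le
      rw [hτ2]
      linarith
    have hτpos : 0 < τ := by linarith
    have hy : -(t : ℂ) ^ 2 - u * 1 = -(τ : ℂ) ^ 2 := by
      have : ((τ ^ 2 : ℝ) : ℂ) = ((t ^ 2 + u : ℝ) : ℂ) := by rw [hτ2]
      push_cast at this
      rw [this]
      ring
    have hd := h1 τ hτt hτt1
    rw [hy, norm_mul, norm_pow, Complex.norm_real, Real.norm_of_nonneg hu0.le]
    obtain ⟨D, hD⟩ : ∃ D : ℝ, D = ‖iteratedDeriv (m + 1) H (-(τ : ℂ) ^ 2)‖ := ⟨_, rfl⟩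
    have hD0 : 0 ≤ D := by
      rw [hD]
      exact norm_nonneg _
    rw [← hD] at hd ⊢
    obtain ⟨x, hx⟩ : ∃ x : ℝ, x = (τ - t) / 2 := ⟨_, rfl⟩
    have hx0 : 0 ≤ x := by
      rw [hx]
      linarith
    have hxe : Real.exp (-(τ - t) / 2) = Real.exp (-x) := by
      rw [hx]
      congr 1
      ring
    rw [hxe] at hd
    have hfac := Pool.Agent.J4H8.JP.pow_mul_exp_neg_le_factorial m hx0
    have hule : u ≤ (2 * τ) * (2 * x) := by
      have : u = τ ^ 2 - t ^ 2 := by linarith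
      rw [this, hx]
      nlinarith
    have hp : (0 : ℝ) < (2 * τ) := by linarith
    have k1 : u ^ m * D * (2 * τ) ≤ M * 2 ^ m * m.factorial := by
      calc u ^ m * D * (2 * τ) ≤ ((2 * τ) * (2 * x)) ^ m * D * (2 * τ) := by gcongr
        _ = 2 ^ m * x ^ m * (D * (2 * τ) ^ (m + 1)) := by
            rw [mul_pow, mul_pow 2 x, pow_succ]
            ring
        _ ≤ 2 ^ m * x ^ m * (M * Real.exp (-x)) := by gcongr
        _ = M * 2 ^ m * (x ^ m * Real.exp (-x)) := by ring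
        _ ≤ M * 2 ^ m * m.factorial := by gcongr
    rw [le_div_iff₀ (by positivity)]
    calc u ^ m * D * (2 * t) ≤ u ^ m * D * (2 * τ) := by gcongr
      _ ≤ M * 2 ^ m * m.factorial := k1
  have hrem : ‖(1 : ℂ) ^ (m + 1) / (m.factorial : ℂ) *
      ∫ u in (0 : ℝ)..U, (u : ℂ) ^ m * iteratedDeriv (m + 1) H (-(t : ℂ) ^ 2 - u * 1)‖ ≤
      2 * (t1 - t) * 2 ^ (m + 1) * M := by
    have hf : (0 : ℝ) < (m.factorial : ℝ) := by exact_mod_cast Nat.factorial_pos m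
    rw [norm_mul, norm_div, one_pow, norm_one, Complex.norm_natCast]
    calc 1 / (m.factorial : ℝ) *
          ‖∫ u in (0 : ℝ)..U, (u : ℂ) ^ m * iteratedDeriv (m + 1) H (-(t : ℂ) ^ 2 - u * 1)‖
        ≤ 1 / (m.factorial : ℝ) * ((M * 2 ^ m * m.factorial / (2 * t)) * |U - 0|) := by gcongr
      _ = M * 2 ^ m * (U / (2 * t)) := by
          rw [sub_zero, abs_of_nonneg hU0]
          field_simp
      _ ≤ M * 2 ^ m * (2 * (t1 - t)) := by
          have : U / (2 * t) ≤ 2 * (t1 - t) := by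
            rw [div_le_iff₀ (by positivity), hU]
            nlinarith
          gcongr
      _ ≤ 2 * (t1 - t) * 2 ^ (m + 1) * M := by
          have k2 : 0 ≤ M * 2 ^ m * (2 * (t1 - t)) := by
            have : 0 ≤ t1 - t := by linarith
            positivity
          have k3 : 2 * (t1 - t) * 2 ^ (m + 1) * M = 2 * (M * 2 ^ m * (2 * (t1 - t))) := by
            rw [pow_succ]
            ring
          rw [k3]
          linarith
  exact (norm_add_le _ _).trans (add_le_add hsum hrem)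

theorem t_INT : Pool.Agent.J4H1.LL.S_INT := by
  intro H hH t t1 M E n ht ht1 ht2 hn hM hE h1 h2
  obtain ⟨m, rfl⟩ : ∃ m : ℕ, n = m + 1 := ⟨n - 1, by omega⟩
  exact int_main hH ht ht1 ht2 hM hE h1 h2

end Pool.Agent.J4H4.LL
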