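import Pool.Agent.J4H1.LL.Stm
import Pool.Agent.J4H1.JP.F0

/-! Project LL, piece STEP. -/

set_option autoImplicit false

open Complex Filter Topology

namespace Pool.Agent.J4H4.LL

open Pool.Agent.J4H1.JP Pool.Agent.J4H1.LB Pool.Agent.J4H5.LM Pool.Agent.J4H1.LL

theorem diff_HH (d : ℕ) : Differentiable ℂ (HH d) := by
  unfold HH Jf
  fun_prop

theorem Gt_nonneg (t : ℝ) : 0 ≤ Gt t := by
  unfold Gt
  positivity

/-- the estimate for one `t` -/
theorem one_t {t t1 l C Λ a e : ℝ} {n d : ℕ} (ht : 2 ≤ t) (hl : l = Real.log t / 2)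
    (ht1 : t1 = t + 8 * Real.log t) (hL1 : 1 ≤ 8 * Real.log t) (hL2 : 8 * Real.log t ≤ t)
    (hC : 1 ≤ C) (hΛ : Λ = Real.log t1) (ha : 0 ≤ a) (he : 0 ≤ e) (he1 : e ≤ 1) (hn : 1 ≤ n)
    (hne : (n : ℝ) ≤ e * l)
    (hn1 : (n : ℝ) * Real.log Λ ≤ (a + e) * l)
    (hn2 : (n : ℝ) * Real.log (8 * Real.log t) ≤ (a + e) * l)
    (hINT : ∀ H : ℂ → ℂ, Differentiable ℂ H → ∀ (t t1 M E : ℝ) (n : ℕ), 1 ≤ t → t + 1 ≤ t1 → t1 ≤ 2 * t → 1 ≤ n →
      0 ≤ M → 0 ≤ E →
      (∀ τ : ℝ, t ≤ τ → τ ≤ t1 → ‖iteratedDeriv n H (-(τ : ℂ) ^ 2)‖ * (2 * τ) ^ n ≤ M * Real.exp (-(τ - t) / 2)) →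
      (∀ k : ℕ, k < n → ‖iteratedDeriv k H (-(t1 : ℂ) ^ 2)‖ * (2 * t1) ^ k ≤ k.factorial * E) →
      ‖H (-(t : ℂ) ^ 2)‖ ≤ n * (t1 - t) ^ n * E + 2 * (t1 - t) * 2 ^ n * M)
    (hG : ∀ τ : ℝ, t ≤ τ → τ ≤ 2 * t → Gt τ ≤ C * Gt t * Real.exp (-(τ - t) / 2))
    (h1 : ∀ τ : ℝ, t ≤ τ → τ ≤ t1 → ‖iteratedDeriv n (HH d) (-(τ : ℂ) ^ 2)‖ * (2 * τ) ^ n ≤
      Gt τ * ((Real.log τ / 2) ^ n * Real.exp (e * (Real.log τ / 2))))
    (h2 : ∀ k : ℕ, ‖iteratedDeriv k (HH d) (-(t1 : ℂ) ^ 2)‖ * (2 * t1) ^ k ≤ k.factorial * (Gt t1 * t1)) :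
    ‖HH d (-(t : ℂ) ^ 2)‖ ≤ Gt t * (Real.exp ((a + 4 * e) * l) * (C * (1 + 16 * Real.log t))) := by
  have ht0 : 0 < t := by linarith
  have hlog : 0 < Real.log t := by linarith
  have hl0 : 0 < l := by
    rw [hl]
    linarith
  have ht1t : t ≤ t1 := by
    rw [ht1]
    linarith
  have ht12 : t1 ≤ 2 * t := by
    rw [ht1]
    linarith
  have ht10 : 0 < t1 := by linarith
  have hΛ2 : Λ ≤ 2 * Real.log t := by
    rw [hΛ]
    have : t1 ≤ t ^ 2 := by nlinarith
    calc Real.log t1 ≤ Real.log (t ^ 2) := Real.log_le_log ht10 this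
      _ = 2 * Real.log t := by
        rw [Real.log_pow]
        norm_num
  have hΛt : Real.log t ≤ Λ := by
    rw [hΛ]
    exact Real.log_le_log ht0 ht1t
  have hΛ0 : 0 < Λ := by linarith
  have hGt := Gt_nonneg t
  have hn0 : (0 : ℝ) ≤ n := Nat.cast_nonneg n
  obtain ⟨M, hM⟩ : ∃ M : ℝ, M = C * Gt t * (Λ ^ n * Real.exp (e * (Λ / 2))) := ⟨_, rfl⟩
  have hM0 : 0 ≤ M := by
    rw [hM]
    positivity
  have hE0 : 0 ≤ Gt t1 * t1 := mul_nonneg (Gt_nonneg _) ht10.le
  have hI := hINT (HH d) (diff_HH d) t t1 M (Gt t1 * t1) n (by linarith) (by rw [ht1]; linarith) ht12 hn hM0 hE0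
    (fun τ hτ hτ1 => by
      refine (h1 τ hτ hτ1).trans ?_
      have hτ0 : 0 < τ := by linarith
      have k1 := hG τ hτ (by linarith)
      have k2 : Real.log τ ≤ Λ := by
        rw [hΛ]
        exact Real.log_le_log hτ0 hτ1
      have k3 : 0 < Real.log τ := Real.log_pos (by linarith)
      have k4 : (Real.log τ / 2) ^ n ≤ Λ ^ n := by
        apply pow_le_pow_left₀ (by linarith)
        linarith
      have k5 : Real.exp (e * (Real.log τ / 2)) ≤ Real.exp (e * (Λ / 2)) := by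
        apply Real.exp_le_exp.2
        apply mul_le_mul_of_nonneg_left _ he
        linarith
      calc Gt τ * ((Real.log τ / 2) ^ n * Real.exp (e * (Real.log τ / 2)))
          ≤ (C * Gt t * Real.exp (-(τ - t) / 2)) * (Λ ^ n * Real.exp (e * (Λ / 2))) := by
            apply mul_le_mul k1 _ (by positivity) (by positivity)
            exact mul_le_mul k4 k5 (Real.exp_pos _).le (by positivity)
        _ = M * Real.exp (-(τ - t) / 2) := by
            rw [hM]
            ring)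
    (fun k _ => h2 k)
  refine hI.trans ?_
  have hd : t1 - t = 8 * Real.log t := by
    rw [ht1]
    ring
  rw [hd]
  have hae : Real.exp ((a + e) * l) ≤ Real.exp ((a + 4 * e) * l) := by
    apply Real.exp_le_exp.2
    apply mul_le_mul_of_nonneg_right _ hl0.le
    linarith
  -- the first term
  have p1 : (8 * Real.log t) ^ n ≤ Real.exp ((a + e) * l) := by
    have h0 : 0 < 8 * Real.log t := by linarith
    calc (8 * Real.log t) ^ n = Real.exp ((n : ℝ) * Real.log (8 * Real.log t)) := by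
          rw [Real.exp_nat_mul, Real.exp_log h0]
      _ ≤ _ := Real.exp_le_exp.2 hn2
  have p2 : (n : ℝ) * (Gt t1 * t1) ≤ C * Gt t := by
    have k1 := hG t1 ht1t ht12
    have k2 : Real.exp (-(t1 - t) / 2) = (t ^ 4)⁻¹ := by
      rw [hd, show -(8 * Real.log t) / 2 = -(4 * Real.log t) by ring, Real.exp_neg]
      congr 1
      rw [mul_comm, Real.exp_mul, Real.exp_log ht0]
      norm_cast
    rw [k2] at k1
    have k3 : (n : ℝ) ≤ t := by
      have a1 : e * l ≤ 1 * l := mul_le_mul_of_nonneg_right he1 hl0.le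
      have a2 : l ≤ t := by
        rw [hl]
        linarith
      linarith
    calc (n : ℝ) * (Gt t1 * t1) ≤ t * ((C * Gt t * (t ^ 4)⁻¹) * (2 * t)) := by
          apply mul_le_mul k3 _ hE0 ht0.le
          exact mul_le_mul k1 ht12 ht10.le (by positivity)
      _ = C * Gt t * (2 / t ^ 2) := by
          field_simp
      _ ≤ C * Gt t * 1 := by
          apply mul_le_mul_of_nonneg_left _ (by positivity)
          rw [div_le_one (by positivity)]
          nlinarith
      _ = C * Gt t := mul_one _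
  have q1 : (n : ℝ) * (8 * Real.log t) ^ n * (Gt t1 * t1) ≤ C * Gt t * Real.exp ((a + 4 * e) * l) := by
    calc (n : ℝ) * (8 * Real.log t) ^ n * (Gt t1 * t1) =
          ((n : ℝ) * (Gt t1 * t1)) * (8 * Real.log t) ^ n := by ring
      _ ≤ (C * Gt t) * Real.exp ((a + 4 * e) * l) := by
          apply mul_le_mul p2 (p1.trans hae) (by positivity) (by positivity)
  -- the second term
  have r1 : Λ ^ n ≤ Real.exp ((a + e) * l) := by
    calc Λ ^ n = Real.exp ((n : ℝ) * Real.log Λ) := by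
          rw [Real.exp_nat_mul, Real.exp_log hΛ0]
      _ ≤ _ := Real.exp_le_exp.2 hn1
  have r2 : (2 : ℝ) ^ n ≤ Real.exp (e * l) := by
    calc (2 : ℝ) ^ n ≤ (Real.exp 1) ^ n := by
          apply pow_le_pow_left₀ (by norm_num)
          have := Real.add_one_le_exp (1 : ℝ)
          linarith
      _ = Real.exp n := by rw [← Real.exp_nat_mul, mul_one]
      _ ≤ _ := Real.exp_le_exp.2 hne
  have r3 : Real.exp (e * (Λ / 2)) ≤ Real.exp (2 * e * l) := by
    apply Real.exp_le_exp.2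
    rw [hl]
    have : e * Λ ≤ e * (2 * Real.log t) := mul_le_mul_of_nonneg_left hΛ2 he
    linarith
  have q2 : 2 * (8 * Real.log t) * 2 ^ n * M ≤
      16 * Real.log t * (C * Gt t * Real.exp ((a + 4 * e) * l)) := by
    have s1 : (2 : ℝ) ^ n * (Λ ^ n * Real.exp (e * (Λ / 2))) ≤ Real.exp ((a + 4 * e) * l) := by
      calc (2 : ℝ) ^ n * (Λ ^ n * Real.exp (e * (Λ / 2)))
          ≤ Real.exp (e * l) * (Real.exp ((a + e) * l) * Real.exp (2 * e * l)) := by
            apply mul_le_mul r2 _ (by positivity) (Real.exp_pos _).le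
            exact mul_le_mul r1 r3 (Real.exp_pos _).le (Real.exp_pos _).le
        _ = Real.exp ((a + 4 * e) * l) := by
            rw [← Real.exp_add, ← Real.exp_add]
            congr 1
            ring
    calc 2 * (8 * Real.log t) * 2 ^ n * M =
          16 * Real.log t * (C * Gt t * ((2 : ℝ) ^ n * (Λ ^ n * Real.exp (e * (Λ / 2))))) := by
          rw [hM]
          ring
      _ ≤ 16 * Real.log t * (C * Gt t * Real.exp ((a + 4 * e) * l)) := by
          apply mul_le_mul_of_nonneg_left _ (by positivity)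
          apply mul_le_mul_of_nonneg_left s1 (by positivity)
  calc (n : ℝ) * (8 * Real.log t) ^ n * (Gt t1 * t1) + 2 * (8 * Real.log t) * 2 ^ n * M
      ≤ C * Gt t * Real.exp ((a + 4 * e) * l) +
        16 * Real.log t * (C * Gt t * Real.exp ((a + 4 * e) * l)) := add_le_add q1 q2
    _ = Gt t * (Real.exp ((a + 4 * e) * l) * (C * (1 + 16 * Real.log t))) := by ring

theorem t_STEP (hlo : S_lo) (hup : S_up) (hUPG : J_UPG) (hPFG : J_PFG) (habs : S_absL) (hTST : S_TST)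
    (hTS2 : S_TS2) (hMON : S_MON) (hGTR : S_GTR) (hINT : S_INT) (hNUM : S_NUM) (hZXI : S_ZXI) :
    S_STEP := by
  intro c p K hc hp hp2 hK hlt hLC hHL
  have hU : S_upG p (1 / 2) := by
    have := hUPG (p / 2) (1 / 2) (by linarith) (by linarith) le_rfl hLC hup
    rwa [show 2 * (p / 2) = p by ring] at this
  have hPF : S_PFG p (1 / 2) := hPFG p (1 / 2) hp hp2 le_rfl hU
  obtain ⟨B, hB⟩ := hHL
  obtain ⟨a, ha⟩ : ∃ a : ℝ, a = 4 * c * (1 + K) := ⟨_, rfl⟩
  have ha0 : 0 ≤ a := by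
    rw [ha]
    positivity
  rw [← ha]
  have hq0 : 0 ≤ max a (p - K) := le_max_of_le_left ha0
  apply hZXI (max a (p - K) / 2) (by linarith)
  intro ε hε
  rw [show 2 * (max a (p - K) / 2) = max a (p - K) by ring]
  obtain ⟨e, he⟩ : ∃ e : ℝ, e = min (ε / 8) 1 := ⟨_, rfl⟩
  have he0 : 0 < e := by
    rw [he]
    exact lt_min (by linarith) one_pos
  have he1 : e ≤ 1 := by
    rw [he]
    exact min_le_right _ _
  have he8 : e ≤ ε / 8 := by
    rw [he]
    exact min_le_left _ _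
  obtain ⟨δ, T1, hδ, hT1⟩ := hTST hlo habs hMON p K hp hp2 hK hU hPF e he0
  obtain ⟨T2, hT2⟩ := hTS2 p K hp hp2 hK hU hPF
  obtain ⟨C0, T3, hT3⟩ := hGTR
  obtain ⟨T4, hT4⟩ := hNUM c B K (min e δ) hc hK (lt_min he0 hδ)
  obtain ⟨T5, hT5⟩ := hPF K 1 e hK one_pos he0
  obtain ⟨C, hC⟩ : ∃ C : ℝ, C = max C0 1 := ⟨_, rfl⟩
  have hC1 : 1 ≤ C := by
    rw [hC]
    exact le_max_right _ _
  have hCC : C0 ≤ C := by
    rw [hC]
    exact le_max_left _ _
  -- large `t`
  have hlogT : Tendsto Real.log atTop atTop := Real.tendsto_log_atTop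
  have ev1 : ∀ᶠ t : ℝ in atTop, 8 * Real.log t ≤ t := by
    have h4 := Real.isLittleO_log_id_atTop.bound (show (0 : ℝ) < 1 / 8 by norm_num)
    filter_upwards [h4, eventually_ge_atTop (1 : ℝ)] with y hy hy1
    rw [Real.norm_of_nonneg (Real.log_nonneg hy1), id, Real.norm_of_nonneg (by linarith)] at hy
    linarith
  have ev2 : ∀ᶠ t : ℝ in atTop, 1 ≤ 8 * Real.log t := by
    filter_upwards [hlogT.eventually_ge_atTop 1] with t h
    linarith
  have ev3 : ∀ᶠ t : ℝ in atTop, C * (1 + 16 * Real.log t) + 1 ≤ Real.exp (ε / 2 * (Real.log t / 2)) := by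
    have h5 : ∀ᶠ x : ℝ in atTop, C * (1 + 16 * x) + 1 ≤ Real.exp (ε / 4 * x) := by
      have h6 : Tendsto (fun x : ℝ => Real.exp (ε / 4 * x) / (x ^ 1)) atTop atTop := by
        have h7 := tendsto_exp_mul_div_rpow_atTop 1 (ε / 4) (by linarith)
        refine h7.congr fun x => ?_
        rw [Real.rpow_one, pow_one]
      filter_upwards [h6.eventually_ge_atTop (C + 16 * C + 1), eventually_ge_atTop (1 : ℝ)] with x h8 h9
      rw [pow_one, le_div_iff₀ (by linarith)] at h8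
      nlinarith
    filter_upwards [hlogT.eventually h5] with t ht
    rw [show ε / 2 * (Real.log t / 2) = ε / 4 * Real.log t by ring]
    exact ht
  obtain ⟨T6, hT6⟩ := eventually_atTop.1 (ev1.and (ev2.and ev3))
  refine ⟨max 2 (max T1 (max T2 (max T3 (max T4 (max T5 T6))))), fun t ht => ?_⟩
  simp only [max_le_iff] at ht
  obtain ⟨ht2, htT1, htT2, htT3, htT4, htT5, htT6⟩ := ht
  obtain ⟨g1, g2, g3⟩ := hT6 t htT6
  obtain ⟨m, n, hm3, hn1, hm, hcm, hne, hnΛ, hn8⟩ := hT4 t htT4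
  obtain ⟨l, hl⟩ : ∃ l : ℝ, l = Real.log t / 2 := ⟨_, rfl⟩
  have hlog : 0 < Real.log t := by linarith
  have hl0 : 0 < l := by
    rw [hl]
    linarith
  rw [← hl] at hne hnΛ hn8 g3 ⊢
  rw [← ha] at hnΛ hn8
  have hmin : (a + min e δ) * l ≤ (a + e) * l := by
    apply mul_le_mul_of_nonneg_right _ hl0.le
    linarith [min_le_left e δ]
  have hGt := Gt_nonneg t
  have hmono : ∀ τ : ℝ, t ≤ τ → τ ≤ t + 8 * Real.log t → τ ^ (2 + 2 * K) ≤ (m : ℝ) := by
    intro τ h1 h2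
    refine le_trans ?_ hm
    exact Real.rpow_le_rpow (by linarith) h2 (by linarith)
  have hone := one_t (t1 := t + 8 * Real.log t) (n := n) (d := m + n) ht2 hl rfl g2 g1 hC1 rfl ha0
    he0.le he1 hn1
    (hne.trans (mul_le_mul_of_nonneg_right (min_le_left _ _) hl0.le))
    (hnΛ.trans hmin) (hn8.trans hmin) hINT
    (fun τ h1 h2 => by
      refine (hT3 t τ htT3 h1 h2).trans ?_
      apply mul_le_mul_of_nonneg_right _ (Real.exp_pos _).le
      exact mul_le_mul_of_nonneg_right hCC hGt)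
    (fun τ h1 h2 => by
      refine hT1 τ (by linarith) m n (hmono τ h1 h2) hn1 ?_ (hB m n hm3 hcm)
      refine hne.trans ?_
      have k1 : min e δ * l ≤ δ * l := mul_le_mul_of_nonneg_right (min_le_right _ _) hl0.le
      have k2 : l ≤ Real.log τ / 2 := by
        rw [hl]
        have := Real.log_le_log (by linarith) h1
        linarith
      exact k1.trans (mul_le_mul_of_nonneg_left k2 hδ.le))
    (fun k => by
      refine hT2 (t + 8 * Real.log t) (by linarith) (m + n) ?_ k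
      refine (hmono _ (by linarith) le_rfl).trans ?_
      push_cast
      linarith [(Nat.cast_nonneg n : (0 : ℝ) ≤ n)])
  have hF : F (-(t : ℂ) ^ 2) = Xi (t * I) := by
    rw [← F_sq]
    congr 1
    rw [mul_pow, I_sq]
    ring
  have h5 := hT5 t htT5 (m + n) (by
    refine (hmono t le_rfl (by linarith)).trans ?_
    push_cast
    linarith [(Nat.cast_nonneg n : (0 : ℝ) ≤ n)]) 0 (by simp)
  have hgg : gg p (1 / 2) (0 : ℂ).re = p := by
    unfold gg
    simp [hp]
  rw [hgg, mul_zero, add_zero, hF, ← hl] at h5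
  have hH : Jf F (m + n) (-(t : ℂ) ^ 2 / ((m + n : ℕ) : ℂ)) = HH (m + n) (-(t : ℂ) ^ 2) := rfl
  rw [hH] at h5
  have h6 : ‖Xi (t * I)‖ ≤ ‖HH (m + n) (-(t : ℂ) ^ 2)‖ + Gt t * Real.exp (l * (p + e - K)) := by
    have h7 : ‖Xi (t * I)‖ ≤ ‖HH (m + n) (-(t : ℂ) ^ 2)‖ +
        ‖HH (m + n) (-(t : ℂ) ^ 2) - Xi (t * I)‖ := by
      have := norm_sub_le (HH (m + n) (-(t : ℂ) ^ 2)) (HH (m + n) (-(t : ℂ) ^ 2) - Xi (t * I))
      rwa [sub_sub_cancel] at this
    linarith
  obtain ⟨q, hq⟩ : ∃ q : ℝ, q = max a (p - K) := ⟨_, rfl⟩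
  have hqa : a ≤ q := by
    rw [hq]
    exact le_max_left _ _
  have hqp : p - K ≤ q := by
    rw [hq]
    exact le_max_right _ _
  rw [← hq]
  have e1 : Real.exp ((a + 4 * e) * l) ≤ Real.exp (l * (q + ε / 2)) := by
    apply Real.exp_le_exp.2
    rw [mul_comm l]
    apply mul_le_mul_of_nonneg_right _ hl0.le
    linarith
  have e2 : Real.exp (l * (p + e - K)) ≤ Real.exp (l * (q + ε / 2)) := by
    apply Real.exp_le_exp.2
    apply mul_le_mul_of_nonneg_left _ hl0.le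
    linarith
  calc ‖Xi (t * I)‖ ≤ ‖HH (m + n) (-(t : ℂ) ^ 2)‖ + Gt t * Real.exp (l * (p + e - K)) := h6
    _ ≤ Gt t * (Real.exp ((a + 4 * e) * l) * (C * (1 + 16 * Real.log t))) +
        Gt t * Real.exp (l * (p + e - K)) := add_le_add hone le_rfl
    _ ≤ Gt t * (Real.exp (l * (q + ε / 2)) * (C * (1 + 16 * Real.log t))) +
        Gt t * Real.exp (l * (q + ε / 2)) := by
        have k0 : 0 ≤ C * (1 + 16 * Real.log t) := by positivity
        apply add_le_add
        · apply mul_le_mul_of_nonneg_left _ hGt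
          exact mul_le_mul_of_nonneg_right e1 k0
        · exact mul_le_mul_of_nonneg_left e2 hGt
    _ = Gt t * (Real.exp (l * (q + ε / 2)) * (C * (1 + 16 * Real.log t) + 1)) := by ring
    _ ≤ Gt t * (Real.exp (l * (q + ε / 2)) * Real.exp (ε / 2 * l)) := by
        apply mul_le_mul_of_nonneg_left _ hGt
        exact mul_le_mul_of_nonneg_left g3 (Real.exp_pos _).le
    _ = Gt t * Real.exp (l * (q + ε)) := by
        rw [← Real.exp_add]
        congr 2
        ring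

end Pool.Agent.J4H4.LL
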